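import Pool.Agent.Q98.SPN.Fin2

/-!
The matrix Spencer bound inside algebras of small dimension, and the Group Spencer theorem.

`n` contractions in a real matrix algebra closed under transposes, or in a complex matrix algebra closed under
conjugate transposes, of dimension `N`: every point of the cube can be rounded to signs with error at most
`C √(min n N) max(1, √log(N/n))`. For every finite group `G` and all coefficients of modulus at most `1`
there are signs with `‖∑ ε_g c_g ρ(g)‖ ≤ C √|G|`, `ρ` the left regular representation.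
-/

set_option autoImplicit false

namespace Pool.Agent.Results.MP_1157dd_an.AlgebraSpencer

open Matrix

/-- The Euclidean operator norm of `A` is at most `b`. -/
def OpLe {𝕜 : Type} [RCLike 𝕜] {m : Type} [Fintype m] (A : Matrix m m 𝕜) (b : ℝ) : Prop :=
  ∀ v : m → 𝕜, Real.sqrt (∑ i, ‖(A *ᵥ v) i‖ ^ 2) ≤ b * Real.sqrt (∑ i, ‖v i‖ ^ 2)

/-- The bound `√(min n N) · max(1, √log(N/n))`. -/
noncomputable def Lam (N n : ℕ) : ℝ :=
  Real.sqrt (min n N : ℕ) * max 1 (Real.sqrt (Real.log ((N : ℝ) / n)))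

/-- The left regular representation: `reg g` maps the unit vector `δ_k` to `δ_{gk}`. -/
def reg {G : Type} [Group G] [DecidableEq G] (g : G) : Matrix G G ℝ :=
  Matrix.of fun h k => if h = g * k then 1 else 0

/-- Every point `x` of the cube `[-1,1]^J` can be rounded to signs `ε` with error
`‖∑ (ε_j - x_j) A_j‖ ≤ b` in the operator norm (for `x = 0` : some signed sum has norm at most `b`). -/
def Rounds {𝕜 : Type} [RCLike 𝕜] {m J : Type} [Fintype m] [Fintype J]
    (A : J → Matrix m m 𝕜) (b : ℝ) : Prop :=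
  ∀ x : J → ℝ, (∀ j, |x j| ≤ 1) → ∃ ε : J → ℝ, (∀ j, ε j = 1 ∨ ε j = -1) ∧
    OpLe (∑ j, ((ε j - x j : ℝ) : 𝕜) • A j) b

theorem opLe_iff {𝕜 : Type} [RCLike 𝕜] {m : Type} [Fintype m] [DecidableEq m] (A : Matrix m m 𝕜)
    (b : ℝ) (hb : 0 ≤ b) : OpLe A b ↔ ‖toEuclideanCLM (𝕜 := 𝕜) A‖ ≤ b := by
  rw [ContinuousLinearMap.opNorm_le_iff hb]
  constructor
  · intro h x
    have := h (WithLp.ofLp x)
    rw [EuclideanSpace.norm_eq, EuclideanSpace.norm_eq]
    exact this
  · intro h v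
    have := h (WithLp.toLp 2 v)
    rw [EuclideanSpace.norm_eq, EuclideanSpace.norm_eq] at this
    exact this

theorem result : ∃ C : ℝ,
    -- real matrix algebras closed under transposes
    (∀ (m : Type) [Fintype m] [DecidableEq m] (𝒜 : Subalgebra ℝ (Matrix m m ℝ)),
      (∀ x ∈ 𝒜, xᵀ ∈ 𝒜) → ∀ (n : ℕ) (A : Fin n → Matrix m m ℝ), (∀ i, A i ∈ 𝒜) →
        (∀ i, OpLe (A i) 1) → Rounds A (C * Lam (Module.finrank ℝ 𝒜) n)) ∧
    -- complex matrix algebras closed under conjugate transposes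
    (∀ (m : Type) [Fintype m] [DecidableEq m] (𝒜 : StarSubalgebra ℂ (Matrix m m ℂ))
      (n : ℕ) (A : Fin n → Matrix m m ℂ), (∀ i, A i ∈ 𝒜) →
        (∀ i, OpLe (A i) 1) → Rounds A (C * Lam (Module.finrank ℂ 𝒜) n)) ∧
    -- the group algebra of a finite group
    (∀ (G : Type) [Group G] [Fintype G] [DecidableEq G] (n : ℕ) (y : Fin n → G → ℝ),
        (∀ i, OpLe (∑ g, y i g • reg g) 1) →
        Rounds (fun i => ∑ g, y i g • reg g) (C * Lam (Fintype.card G) n)) ∧
    -- the Group Spencer theorem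
    (∀ (G : Type) [Group G] [Fintype G] [DecidableEq G] (c : G → ℝ), (∀ g, |c g| ≤ 1) →
        Rounds (fun g => c g • reg g) (C * Real.sqrt (Fintype.card G))) := by
  refine ⟨4 * 10 ^ 5, ?_, ?_, ?_, ?_⟩
  · intro m _ _ 𝒜 hT n A hA hn x hx
    obtain ⟨ε, h1, h2⟩ := Q98.SPN.linR m 𝒜 hT _ le_rfl (Fin n) A hA
      (fun j => by
        rw [← Matrix.l2_opNorm_toEuclideanCLM]
        exact (opLe_iff _ _ zero_le_one).mp (hn j)) x hx
    refine ⟨ε, h1, ?_⟩
    have h3 : 0 ≤ Lam (Module.finrank ℝ 𝒜) n := Q98.SPN.Lam_nonneg _ _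
    rw [opLe_iff _ _ (by positivity), Matrix.l2_opNorm_toEuclideanCLM]
    rw [Fintype.card_fin] at h2
    have h4 : Q98.SPN.Lam (Module.finrank ℝ 𝒜) n = Lam (Module.finrank ℝ 𝒜) n := rfl
    rw [h4] at h2
    refine le_trans h2 ?_
    linarith
  · intro m _ _ 𝒜 n A hA hn x hx
    obtain ⟨ε, h1, h2⟩ := Q98.SPN.linC m 𝒜 (Fin n) A hA
      (fun j => by
        rw [← Matrix.l2_opNorm_toEuclideanCLM]
        exact (opLe_iff _ _ zero_le_one).mp (hn j)) x hx
    refine ⟨ε, h1, ?_⟩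
    have h3 : 0 ≤ Lam (Module.finrank ℂ 𝒜) n := Q98.SPN.Lam_nonneg _ _
    rw [opLe_iff _ _ (by positivity), Matrix.l2_opNorm_toEuclideanCLM]
    rw [Fintype.card_fin] at h2
    have h4 : Q98.SPN.Lam (Module.finrank ℂ 𝒜) n = Lam (Module.finrank ℂ 𝒜) n := rfl
    rw [h4] at h2
    refine le_trans h2 ?_
    linarith
  · intro G _ _ _ n y hn x hx
    obtain ⟨ε, h1, h2⟩ := Q98.SPN.linG G (Fin n) y
      (fun j => by
        rw [← Matrix.l2_opNorm_toEuclideanCLM]
        exact (opLe_iff _ _ zero_le_one).mp (hn j)) x hx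
    refine ⟨ε, h1, ?_⟩
    have h3 : 0 ≤ Lam (Fintype.card G) n := Q98.SPN.Lam_nonneg _ _
    rw [opLe_iff _ _ (by positivity), Matrix.l2_opNorm_toEuclideanCLM]
    rw [Fintype.card_fin] at h2
    have h4 : Q98.SPN.Lam (Fintype.card G) n = Lam (Fintype.card G) n := rfl
    rw [h4] at h2
    refine le_trans h2 ?_
    linarith
  · intro G _ _ _ c hc x hx
    obtain ⟨ε, h1, h2⟩ := Q98.SPN.linS G c hc x hx
    refine ⟨ε, h1, ?_⟩
    rw [opLe_iff _ _ (by positivity)]
    rw [← Matrix.l2_opNorm_toEuclideanCLM] at h2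
    have e : ∑ g, ((ε g - x g : ℝ) : ℝ) • (c g • reg g) = ∑ g, ((ε g - x g) * c g) • Q98.SPN.reg g :=
      Finset.sum_congr rfl fun g _ => by rw [smul_smul]; rfl
    have h3 := Real.sqrt_nonneg (Fintype.card G : ℝ)
    have h4 : 2 * (10 ^ 5 * Real.sqrt (Fintype.card G : ℝ)) ≤ 4 * 10 ^ 5 * Real.sqrt (Fintype.card G : ℝ) := by
      linarith
    refine le_trans ?_ (h2.trans h4)
    rw [← e]
    exact le_of_eq rfl

end Pool.Agent.Results.MP_1157dd_an.AlgebraSpencer
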